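import Mathlib
import Pool.Agent.Helper358.General

set_option autoImplicit false

namespace Pool.Agent.Results.MP_c6db0f_gt.AllHomeoToBall

/-- The space of all `x` with absolute sum at most one and `a i ≤ x i ≤ b i` for all `i`
(the absolute sum is at most one when all finite partial sums are), a subset of the product. -/
def B {κ : Type*} (a b : κ → ℝ) : Set (κ → ℝ) :=
  {x | (∀ s : Finset κ, ∑ i ∈ s, |x i| ≤ 1) ∧ ∀ i, a i ≤ x i ∧ x i ≤ b i}

/-- Every band-intersection of the ball is homeomorphic to the ball. -/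
theorem result (κ : Type*) [Uncountable κ] (a b : κ → ℝ)
    (_ha : ∀ i, -1 ≤ a i) (hab : ∀ i, a i < b i) (_hb : ∀ i, b i ≤ 1)
    (hs : Summable fun i => max (a i) 0 + max (-b i) 0)
    (hlt : ∑' i, (max (a i) 0 + max (-b i) 0) < 1) :
    Nonempty (↥(B a b) ≃ₜ ↥(B (fun _ : κ => -1) (fun _ => 1))) := by
  obtain ⟨h1⟩ := Pool.Agent.Helper358.General.B_homeo_Pos a b hab hs hlt
  have e : (fun _ : κ => max (-1 : ℝ) 0 + max (-(1 : ℝ)) 0) = fun _ => 0 := by
    funext i; norm_num
  obtain ⟨h2⟩ := Pool.Agent.Helper358.General.B_homeo_Pos (κ := κ) (fun _ => -1) (fun _ => 1)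
    (fun _ => by norm_num) (by rw [e]; exact summable_zero) (by rw [e]; simp)
  exact ⟨h1.symm.trans h2⟩

end Pool.Agent.Results.MP_c6db0f_gt.AllHomeoToBall
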