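import Mathlib
import Pool.Agent.Helper358.General

set_option autoImplicit false

namespace Pool.Agent.Results.MP_c6db0f_gt.AnyTwoHomeo

/-- The space of all `x` with absolute sum at most one and `a i ≤ x i ≤ b i` for all `i`
(the absolute sum is at most one when all finite partial sums are), a subset of the product. -/
def B {κ : Type*} (a b : κ → ℝ) : Set (κ → ℝ) :=
  {x | (∀ s : Finset κ, ∑ i ∈ s, |x i| ≤ 1) ∧ ∀ i, a i ≤ x i ∧ x i ≤ b i}

/-- The pairs allowed in the problem. -/
def Admissible {κ : Type*} (a b : κ → ℝ) : Prop :=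
  (∀ i, -1 ≤ a i ∧ a i < b i ∧ b i ≤ 1) ∧
    (Summable fun i => max (a i) 0 + max (-b i) 0) ∧
      ∑' i, (max (a i) 0 + max (-b i) 0) < 1

/-- Any two admissible pairs over the same uncountable index set give homeomorphic spaces. -/
theorem result (κ : Type*) [Uncountable κ] (a b a' b' : κ → ℝ)
    (h : Admissible a b) (h' : Admissible a' b') :
    Nonempty (↥(B a b) ≃ₜ ↥(B a' b')) := by
  obtain ⟨h1⟩ := Pool.Agent.Helper358.General.B_homeo_Pos a b (fun i => (h.1 i).2.1) h.2.1 h.2.2
  obtain ⟨h2⟩ := Pool.Agent.Helper358.General.B_homeo_Pos a' b' (fun i => (h'.1 i).2.1)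
    h'.2.1 h'.2.2
  exact ⟨h1.symm.trans h2⟩

end Pool.Agent.Results.MP_c6db0f_gt.AnyTwoHomeo
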